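import Pool.Agent.Q97.UM.Stm18
import Pool.Agent.Helper601.Mertens

set_option autoImplicit false

/-! Project UM11 (helper97), job PWK: powers of the prime sum. -/

namespace Pool.Agent.Q190.UM

open Filter Topology Complex
open Pool.Agent.Q97.UM

noncomputable section

/-- primes up to `X` -/
abbrev PX (X : ℕ) : Finset ℕ := (Finset.Icc 1 X).filter Nat.Prime

/-- the mean of `g` over the ordered products of `k` primes -/
def EE (X : ℕ) : ℕ → (ℕ → ℝ) → ℝ
  | 0 => fun g => g 1
  | (k + 1) => fun g => ∑ p ∈ PX X, (1 / (p : ℝ)) * EE X k (fun m => g (p * m))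

/-- number of ordered factorisations into `k` primes up to `X` -/
def ck (X : ℕ) : ℕ → ℕ → ℕ
  | 0 => fun n => if n = 1 then 1 else 0
  | (k + 1) => fun n => ∑ p ∈ (PX X).filter (fun p => p ∣ n), ck X k (n / p)

lemma ck_zero (X k : ℕ) : ck X k 0 = 0 := by
  induction k with
  | zero => simp [ck]
  | succ k ih => simp [ck, ih]

lemma pk_eq (X k n : ℕ) : pk X k n = (ck X k n : ℂ) := by
  induction k generalizing n with
  | zero => simp [pk, ck]
  | succ k ih =>
    rcases Nat.eq_zero_or_pos n with hn | hn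
    · subst hn
      rw [ck_zero]
      simp [pk, cv]
    · simp only [pk, ck, cv]
      rw [Nat.sum_divisorsAntidiagonal (f := fun a b => pc X a * pk X k b)]
      push_cast
      have h1 : ∀ a ∈ n.divisors, pc X a * pk X k (n / a) = if a.Prime ∧ a ≤ X then (ck X k (n / a) : ℂ) else 0 := by
        intro a _
        unfold pc
        rw [ih]
        split_ifs <;> simp
      rw [Finset.sum_congr rfl h1, ← Finset.sum_filter]
      refine Finset.sum_congr ?_ fun _ _ => rfl
      ext p
      simp only [Finset.mem_filter, Nat.mem_divisors, Finset.mem_Icc]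
      constructor
      · rintro ⟨⟨h2, _⟩, h3, h4⟩
        exact ⟨⟨⟨h3.one_lt.le, h4⟩, h3⟩, h2⟩
      · rintro ⟨⟨⟨_, h4⟩, h3⟩, h2⟩
        exact ⟨⟨h2, hn.ne'⟩, h3, h4⟩

lemma ck_supp {X k n : ℕ} (h : ck X k n ≠ 0) : 1 ≤ n ∧ n ≤ X ^ k ∧ n.primeFactorsList.length = k ∧
    ∀ p : ℕ, p.Prime → p ∣ n → p ≤ X := by
  induction k generalizing n with
  | zero =>
    simp only [ck] at h
    have hn : n = 1 := by
      by_contra hne
      simp [hne] at h
    subst hn
    refine ⟨le_rfl, by simp, by simp, fun p hp hd => ?_⟩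
    exact absurd (Nat.dvd_one.1 hd) hp.one_lt.ne'
  | succ k ih =>
    simp only [ck] at h
    obtain ⟨q, hq, hne⟩ := Finset.exists_ne_zero_of_sum_ne_zero h
    rw [Finset.mem_filter, Finset.mem_filter, Finset.mem_Icc] at hq
    obtain ⟨⟨⟨_, hqX⟩, hqp⟩, hqn⟩ := hq
    obtain ⟨i1, i2, i3, i4⟩ := ih hne
    have hn : n = q * (n / q) := (Nat.mul_div_cancel' hqn).symm
    refine ⟨?_, ?_, ?_, fun p hp hd => ?_⟩
    · rw [hn]; exact Nat.mul_pos hqp.pos i1
    · rw [hn, pow_succ, mul_comm]; exact Nat.mul_le_mul i2 hqX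
    · have h5 := (Nat.perm_primeFactorsList_mul hqp.ne_zero (by omega : n / q ≠ 0)).length_eq
      rw [← hn, List.length_append, Nat.primeFactorsList_prime hqp, i3] at h5
      rw [h5, List.length_singleton]
      omega
    · rw [hn] at hd
      rcases (Nat.Prime.dvd_mul hp).1 hd with h6 | h6
      · rwa [(Nat.prime_dvd_prime_iff_eq hp hqp).1 h6]
      · exact i4 p hp h6

/-- the transfer formula -/
lemma sum_ck (X k : ℕ) (g : ℕ → ℝ) : ∑ n ∈ Finset.Icc 1 (X ^ k), (ck X k n : ℝ) / n * g n = EE X k g := by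
  induction k generalizing g with
  | zero => simp [ck, EE]
  | succ k ih =>
    simp only [EE]
    have h1 : ∀ n ∈ Finset.Icc 1 (X ^ (k + 1)), (ck X (k + 1) n : ℝ) / n * g n =
        ∑ p ∈ PX X, if p ∣ n then (ck X k (n / p) : ℝ) / n * g n else 0 := by
      intro n _
      rw [← Finset.sum_filter]
      simp only [ck]
      push_cast
      rw [Finset.sum_div, Finset.sum_mul]
    rw [Finset.sum_congr rfl h1, Finset.sum_comm]
    refine Finset.sum_congr rfl fun p hp => ?_
    rw [Finset.mem_filter, Finset.mem_Icc] at hp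
    obtain ⟨⟨hp1, hpX⟩, hpp⟩ := hp
    rw [← ih, Finset.mul_sum, ← Finset.sum_filter]
    symm
    have h2 : ∑ m ∈ Finset.Icc 1 (X ^ k), (1 / (p : ℝ)) * ((ck X k m : ℝ) / m * g (p * m)) =
        ∑ n ∈ (Finset.Icc 1 (X ^ k)).image (fun m => p * m), (ck X k (n / p) : ℝ) / n * g n := by
      rw [Finset.sum_image fun a _ b _ hab => Nat.eq_of_mul_eq_mul_left hpp.pos hab]
      refine Finset.sum_congr rfl fun m hm => ?_
      rw [Nat.mul_div_cancel_left m hpp.pos]
      have hm0 : (m : ℝ) ≠ 0 := by
        have := (Finset.mem_Icc.1 hm).1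
        exact_mod_cast (by omega : m ≠ 0)
      have hp0 : (p : ℝ) ≠ 0 := by exact_mod_cast hpp.ne_zero
      push_cast
      field_simp
    rw [h2]
    refine Finset.sum_subset ?_ ?_
    · intro n hn
      obtain ⟨m, hm, rfl⟩ := Finset.mem_image.1 hn
      rw [Finset.mem_Icc] at hm
      rw [Finset.mem_filter, Finset.mem_Icc]
      refine ⟨⟨Nat.mul_pos hpp.pos hm.1, ?_⟩, dvd_mul_right _ _⟩
      rw [pow_succ, mul_comm]
      exact Nat.mul_le_mul hm.2 hpX
    · intro n hn hn2
      rw [Finset.mem_filter, Finset.mem_Icc] at hn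
      obtain ⟨⟨hn1, _⟩, hd⟩ := hn
      have h0 : ck X k (n / p) = 0 := by
        by_contra hne
        obtain ⟨i1, i2, _, _⟩ := ck_supp hne
        apply hn2
        rw [Finset.mem_image]
        exact ⟨n / p, Finset.mem_Icc.2 ⟨i1, i2⟩, Nat.mul_div_cancel' hd⟩
      rw [h0]
      simp

lemma EE_mono {X k : ℕ} {g h : ℕ → ℝ} (H : ∀ n, ck X k n ≠ 0 → g n ≤ h n) : EE X k g ≤ EE X k h := by
  rw [← sum_ck, ← sum_ck]
  refine Finset.sum_le_sum fun n _ => ?_
  by_cases h0 : ck X k n = 0
  · rw [h0]; simp
  · exact mul_le_mul_of_nonneg_left (H n h0) (by positivity)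

lemma EE_add (X k : ℕ) (g h : ℕ → ℝ) : EE X k (fun n => g n + h n) = EE X k g + EE X k h := by
  rw [← sum_ck, ← sum_ck, ← sum_ck, ← Finset.sum_add_distrib]
  exact Finset.sum_congr rfl fun n _ => by ring

lemma EE_smul (X k : ℕ) (c : ℝ) (g : ℕ → ℝ) : EE X k (fun n => c * g n) = c * EE X k g := by
  rw [← sum_ck, ← sum_ck, Finset.mul_sum]
  exact Finset.sum_congr rfl fun n _ => by ring

/-- the sum of the reciprocals of the primes -/
def SX (X : ℕ) : ℝ := ∑ p ∈ PX X, 1 / (p : ℝ)

lemma SX_nonneg (X : ℕ) : 0 ≤ SX X := Finset.sum_nonneg fun _ _ => by positivity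

lemma EE_one (X k : ℕ) : EE X k (fun _ => 1) = SX X ^ k := by
  induction k with
  | zero => simp [EE]
  | succ k ih =>
    simp only [EE]
    rw [ih, ← Finset.sum_mul, pow_succ, mul_comm]
    rfl

lemma EE_nonneg {X k : ℕ} {g : ℕ → ℝ} (h : ∀ n, 0 ≤ g n) : 0 ≤ EE X k g := by
  rw [← sum_ck]
  exact Finset.sum_nonneg fun n _ => mul_nonneg (by positivity) (h n)

/-- `m` is divisible by `q` -/
lemma EE_dvd {X k q : ℕ} (hq : q ∈ PX X) :
    SX X * EE X k (fun m => if q ∣ m then 1 else 0) ≤ k / q * SX X ^ k := by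
  have hqp : q.Prime := (Finset.mem_filter.1 hq).2
  have hS := SX_nonneg X
  induction k with
  | zero =>
    simp only [EE, Nat.dvd_one, hqp.one_lt.ne', if_false]
    simp
  | succ k ih =>
    have h1 : EE X (k + 1) (fun m => if q ∣ m then 1 else 0) ≤
        SX X * EE X k (fun m => if q ∣ m then 1 else 0) + 1 / q * SX X ^ k := by
      simp only [EE]
      have h2 : ∀ p ∈ PX X, 1 / (p : ℝ) * EE X k (fun m => if q ∣ p * m then 1 else 0) ≤
          1 / (p : ℝ) * EE X k (fun m => if q ∣ m then 1 else 0) + (if p = q then 1 / (p : ℝ) * SX X ^ k else 0) := by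
        intro p hp
        have hpp : p.Prime := (Finset.mem_filter.1 hp).2
        split_ifs with h3
        · rw [← mul_add]
          refine mul_le_mul_of_nonneg_left ?_ (by positivity)
          rw [← EE_one X k, ← EE_add]
          refine EE_mono fun n _ => ?_
          split_ifs <;> norm_num
        · rw [add_zero]
          refine mul_le_mul_of_nonneg_left (EE_mono fun n _ => ?_) (by positivity)
          have h4 : q ∣ p * n ↔ q ∣ n := by
            rw [hqp.dvd_mul]
            constructor
            · rintro (h5 | h5)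
              · exact absurd ((Nat.prime_dvd_prime_iff_eq hqp hpp).1 h5).symm h3
              · exact h5
            · exact Or.inr
          simp only [h4, le_refl]
      refine (Finset.sum_le_sum h2).trans ?_
      rw [Finset.sum_add_distrib, ← Finset.sum_mul, Finset.sum_ite_eq' (PX X) q, if_pos hq]
      rfl
    have h6 := mul_le_mul_of_nonneg_left h1 hS
    have h7 := mul_le_mul_of_nonneg_left ih hS
    have h8 : SX X * (k / q * SX X ^ k) + SX X * (1 / q * SX X ^ k) = ((k + 1 : ℕ) : ℝ) / q * SX X ^ (k + 1) := by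
      push_cast; ring
    calc _ ≤ _ := h6
      _ = SX X * (SX X * EE X k (fun m => if q ∣ m then 1 else 0)) + SX X * (1 / q * SX X ^ k) := by ring
      _ ≤ SX X * (k / q * SX X ^ k) + SX X * (1 / q * SX X ^ k) := by linarith
      _ = _ := h8

/-- the sum of the squares of the reciprocals of the primes -/
def PP2 (X : ℕ) : ℝ := ∑ p ∈ PX X, 1 / (p : ℝ) ^ 2

lemma PP2_nonneg (X : ℕ) : 0 ≤ PP2 X := Finset.sum_nonneg fun _ _ => by positivity

open Classical in
lemma EE_nsq (X k : ℕ) :
    SX X ^ 2 * EE X k (fun m => if Squarefree m then 0 else 1) ≤ k ^ 2 * PP2 X * SX X ^ k := by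
  have hS := SX_nonneg X
  have hP := PP2_nonneg X
  induction k with
  | zero => simp [EE]
  | succ k ih =>
    have h1 : SX X * EE X (k + 1) (fun m => if Squarefree m then 0 else 1) ≤
        SX X ^ 2 * EE X k (fun m => if Squarefree m then 0 else 1) + k * PP2 X * SX X ^ k := by
      simp only [EE]
      have h2 : ∀ p ∈ PX X, SX X * (1 / (p : ℝ) * EE X k (fun m => if Squarefree (p * m) then 0 else 1)) ≤
          SX X * (1 / (p : ℝ) * EE X k (fun m => if Squarefree m then 0 else 1)) +
            k * (1 / (p : ℝ) ^ 2) * SX X ^ k := by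
        intro p hp
        have hpp : p.Prime := (Finset.mem_filter.1 hp).2
        have hp0 : (0 : ℝ) < p := by exact_mod_cast hpp.pos
        have h3 : EE X k (fun m => if Squarefree (p * m) then 0 else 1) ≤
            EE X k (fun m => if Squarefree m then 0 else 1) + EE X k (fun m => if p ∣ m then 1 else 0) := by
          rw [← EE_add]
          refine EE_mono fun n _ => ?_
          by_cases h4 : p ∣ n
          · rw [if_pos h4]
            split_ifs <;> norm_num
          · rw [if_neg h4, add_zero]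
            have h5 : Squarefree n → Squarefree (p * n) := fun h6 =>
              (Nat.squarefree_mul ((Nat.Prime.coprime_iff_not_dvd hpp).2 h4)).2 ⟨hpp.squarefree, h6⟩
            split_ifs with h7 h8 h8
            · exact le_rfl
            · norm_num
            · exact absurd (h5 h8) h7
            · exact le_rfl
        have h9 := EE_dvd (k := k) hp
        have h10 : 0 ≤ 1 / (p : ℝ) := by positivity
        calc SX X * (1 / (p : ℝ) * EE X k (fun m => if Squarefree (p * m) then 0 else 1))
            ≤ SX X * (1 / (p : ℝ) * (EE X k (fun m => if Squarefree m then 0 else 1) +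
              EE X k (fun m => if p ∣ m then 1 else 0))) :=
              mul_le_mul_of_nonneg_left (mul_le_mul_of_nonneg_left h3 h10) hS
          _ = SX X * (1 / (p : ℝ) * EE X k (fun m => if Squarefree m then 0 else 1)) +
              1 / (p : ℝ) * (SX X * EE X k (fun m => if p ∣ m then 1 else 0)) := by ring
          _ ≤ SX X * (1 / (p : ℝ) * EE X k (fun m => if Squarefree m then 0 else 1)) +
              1 / (p : ℝ) * (k / p * SX X ^ k) := by
              have := mul_le_mul_of_nonneg_left h9 h10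
              linarith
          _ = _ := by ring
      rw [Finset.mul_sum]
      refine (Finset.sum_le_sum h2).trans (le_of_eq ?_)
      rw [Finset.sum_add_distrib, ← Finset.mul_sum, ← Finset.sum_mul, ← Finset.sum_mul, ← Finset.mul_sum]
      unfold PP2 SX
      ring
    have h6 := mul_le_mul_of_nonneg_left h1 hS
    have h7 := mul_le_mul_of_nonneg_left ih hS
    calc SX X ^ 2 * EE X (k + 1) (fun m => if Squarefree m then 0 else 1)
        = SX X * (SX X * EE X (k + 1) (fun m => if Squarefree m then 0 else 1)) := by ring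
      _ ≤ _ := h6
      _ = SX X * (SX X ^ 2 * EE X k (fun m => if Squarefree m then 0 else 1)) + k * PP2 X * SX X ^ (k + 1) := by ring
      _ ≤ SX X * (k ^ 2 * PP2 X * SX X ^ k) + k * PP2 X * SX X ^ (k + 1) := by linarith
      _ = (k ^ 2 + k) * (PP2 X * SX X ^ (k + 1)) := by ring
      _ ≤ ((k + 1 : ℕ) : ℝ) ^ 2 * (PP2 X * SX X ^ (k + 1)) := by
          refine mul_le_mul_of_nonneg_right ?_ (by positivity)
          push_cast
          nlinarith [(Nat.cast_nonneg k : (0 : ℝ) ≤ k)]
      _ = _ := by ring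

lemma ck_le {X k n : ℕ} : ck X k n ≤ k.factorial := by
  induction k generalizing n with
  | zero =>
    simp only [ck]
    split_ifs <;> simp
  | succ k ih =>
    by_cases h0 : ck X (k + 1) n = 0
    · rw [h0]; exact Nat.zero_le _
    · obtain ⟨i1, _, i3, _⟩ := ck_supp h0
      simp only [ck]
      refine (Finset.sum_le_card_nsmul _ _ k.factorial fun p _ => ih).trans ?_
      rw [smul_eq_mul, Nat.factorial_succ]
      refine Nat.mul_le_mul_right _ ?_
      have h2 : (PX X).filter (fun p => p ∣ n) ⊆ n.primeFactorsList.toFinset := by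
        intro p hp
        rw [Finset.mem_filter, Finset.mem_filter] at hp
        rw [List.mem_toFinset, Nat.mem_primeFactorsList (by omega)]
        exact ⟨hp.1.2, hp.2⟩
      have h3 := (Finset.card_le_card h2).trans (List.toFinset_card_le _)
      rwa [i3] at h3

lemma ck_sqf {X k n : ℕ} (hn : Squarefree n) (hk : n.primeFactorsList.length = k)
    (hX : ∀ p : ℕ, p.Prime → p ∣ n → p ≤ X) : ck X k n = k.factorial := by
  induction k generalizing n with
  | zero =>
    have h1 : n.primeFactorsList = [] := List.length_eq_zero_iff.1 hk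
    rw [Nat.primeFactorsList_eq_nil] at h1
    rcases h1 with h1 | h1
    · subst h1
      exact absurd hn not_squarefree_zero
    · subst h1
      simp [ck]
  | succ k ih =>
    have hn0 : n ≠ 0 := hn.ne_zero
    simp only [ck]
    have h2 : (PX X).filter (fun p => p ∣ n) = n.primeFactorsList.toFinset := by
      ext p
      rw [Finset.mem_filter, Finset.mem_filter, List.mem_toFinset, Nat.mem_primeFactorsList hn0, Finset.mem_Icc]
      constructor
      · rintro ⟨⟨_, h3⟩, h4⟩
        exact ⟨h3, h4⟩
      · rintro ⟨h3, h4⟩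
        exact ⟨⟨⟨h3.one_lt.le, hX p h3 h4⟩, h3⟩, h4⟩
    rw [h2]
    have h3 : ∀ p ∈ n.primeFactorsList.toFinset, ck X k (n / p) = k.factorial := by
      intro p hp
      rw [List.mem_toFinset, Nat.mem_primeFactorsList hn0] at hp
      obtain ⟨hpp, hd⟩ := hp
      have hm : n = p * (n / p) := (Nat.mul_div_cancel' hd).symm
      have hm0 : n / p ≠ 0 := by
        intro h
        rw [h, mul_zero] at hm
        exact hn0 hm
      refine ih (hn.squarefree_of_dvd ⟨p, by rw [mul_comm]; exact hm⟩) ?_ fun q hq hqd => ?_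
      · have h5 := (Nat.perm_primeFactorsList_mul hpp.ne_zero hm0).length_eq
        rw [← hm, List.length_append, Nat.primeFactorsList_prime hpp, hk, List.length_singleton] at h5
        omega
      · exact hX q hq (hqd.trans ⟨p, by rw [mul_comm]; exact hm⟩)
    rw [Finset.sum_congr rfl h3, Finset.sum_const, smul_eq_mul, Nat.factorial_succ]
    congr 1
    rw [List.toFinset_card_of_nodup ((Nat.squarefree_iff_nodup_primeFactorsList hn0).1 hn), hk]

lemma N2_eq (X k : ℕ) : N2 (X ^ k) (pk X k) = EE X k (fun n => (ck X k n : ℝ)) := by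
  rw [← sum_ck]
  unfold N2
  refine Finset.sum_congr rfl fun n _ => ?_
  rw [pk_eq, Complex.norm_natCast]
  ring

lemma N2_up (X k : ℕ) : N2 (X ^ k) (pk X k) ≤ k.factorial * SX X ^ k := by
  rw [N2_eq, ← EE_one, ← EE_smul]
  refine EE_mono fun n _ => ?_
  rw [mul_one]
  exact_mod_cast ck_le

open Classical in
lemma N2_lo (X k : ℕ) : k.factorial * (SX X ^ k - EE X k (fun m => if Squarefree m then 0 else 1)) ≤
    N2 (X ^ k) (pk X k) := by
  have h1 : SX X ^ k - EE X k (fun m => if Squarefree m then 0 else 1) = EE X k (fun m => if Squarefree m then 1 else 0) := by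
    rw [← EE_one, sub_eq_iff_eq_add, ← EE_add]
    congr 1
    funext n
    split_ifs <;> norm_num
  rw [h1, N2_eq, ← EE_smul]
  refine EE_mono fun n hn => ?_
  obtain ⟨_, _, i3, i4⟩ := ck_supp hn
  split_ifs with h2
  · rw [ck_sqf h2 i3 i4, mul_one]
  · rw [mul_zero]; exact Nat.cast_nonneg _

lemma PP2_le (X : ℕ) : PP2 X ≤ 2 := by
  have h1 : PP2 X ≤ ∑ n ∈ Finset.Icc 1 X, 1 / (n : ℝ) ^ 2 :=
    Finset.sum_le_sum_of_subset_of_nonneg (Finset.filter_subset _ _) fun _ _ _ => by positivity
  have h2 : ∀ N : ℕ, 1 ≤ N → ∑ n ∈ Finset.Icc 1 N, 1 / (n : ℝ) ^ 2 ≤ 2 - 1 / (N : ℝ) := by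
    intro N hN
    induction N, hN using Nat.le_induction with
    | base => norm_num
    | succ N hN ih =>
      rw [Finset.sum_Icc_succ_top (by omega)]
      have hN0 : (0 : ℝ) < N := by exact_mod_cast hN
      have h3 : 1 / ((N + 1 : ℕ) : ℝ) ^ 2 ≤ 1 / (N : ℝ) - 1 / ((N + 1 : ℕ) : ℝ) := by
        push_cast
        rw [div_sub_div _ _ (by positivity) (by positivity), div_le_div_iff₀ (by positivity) (by positivity)]
        nlinarith
      linarith
  rcases Nat.eq_zero_or_pos X with hX | hX
  · subst hX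
    simp [PP2, PX]
  · refine h1.trans ((h2 X hX).trans ?_)
    have : 0 ≤ 1 / (X : ℝ) := by positivity
    linarith

/-- Mertens -/
lemma SX_asymp : Tendsto (fun X : ℕ => SX X / Real.log (Real.log X)) atTop (𝓝 1) ∧ Tendsto SX atTop atTop := by
  obtain ⟨C, hC⟩ := Pool.Agent.Helper601.Mertens.mertens_inv
  have hll : Tendsto (fun X : ℕ => Real.log (Real.log X)) atTop atTop :=
    Real.tendsto_log_atTop.comp (Real.tendsto_log_atTop.comp tendsto_natCast_atTop_atTop)
  have hC0 : 0 ≤ C := (abs_nonneg _).trans (hC 3 le_rfl)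
  constructor
  · rw [tendsto_iff_norm_sub_tendsto_zero]
    have h1 : Tendsto (fun X : ℕ => C / Real.log (Real.log X)) atTop (𝓝 0) := hll.const_div_atTop C
    refine squeeze_zero' (Eventually.of_forall fun _ => norm_nonneg _) ?_ h1
    filter_upwards [eventually_ge_atTop 3, hll.eventually_gt_atTop 0] with X hX hl
    have h2 := hC X hX
    rw [Real.norm_eq_abs]
    have e : SX X / Real.log (Real.log X) - 1 = (SX X - Real.log (Real.log X)) / Real.log (Real.log X) := by
      field_simp
    rw [e, abs_div, abs_of_pos hl]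
    exact div_le_div_of_nonneg_right h2 hl.le
  · refine tendsto_atTop_mono' _ ?_ (tendsto_atTop_add_const_right _ (-C) hll)
    filter_upwards [eventually_ge_atTop 3] with X hX
    have h2 := (abs_le.1 (hC X hX)).1
    change Real.log (Real.log X) + -C ≤ SX X
    unfold SX
    linarith

lemma N2_asymp (k : ℕ) : Tendsto (fun X : ℕ => N2 (X ^ k) (pk X k) / SX X ^ k) atTop (𝓝 (k.factorial : ℝ)) := by
  classical
  obtain ⟨_, hS⟩ := SX_asymp
  have h1 : Tendsto (fun X : ℕ => (k.factorial : ℝ) * (1 - k ^ 2 * 2 / SX X ^ 2)) atTop (𝓝 (k.factorial : ℝ)) := by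
    have h2 : Tendsto (fun X : ℕ => (k : ℝ) ^ 2 * 2 / SX X ^ 2) atTop (𝓝 0) :=
      ((tendsto_pow_atTop two_ne_zero).comp hS).const_div_atTop _
    have h3 := (tendsto_const_nhds (x := (1 : ℝ))).sub h2
    have h4 := h3.const_mul (k.factorial : ℝ)
    simpa using h4
  refine tendsto_of_tendsto_of_tendsto_of_le_of_le' h1 tendsto_const_nhds ?_ ?_
  · filter_upwards [hS.eventually_gt_atTop 0] with X hX
    have h5 := N2_lo X k
    have h6 := EE_nsq X k
    have h7 : k ^ 2 * PP2 X * SX X ^ k ≤ k ^ 2 * 2 * SX X ^ k := by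
      have := PP2_le X
      gcongr
    have hSk : 0 < SX X ^ k := by positivity
    have hS2 : 0 < SX X ^ 2 := by positivity
    rw [le_div_iff₀ hSk]
    refine le_trans ?_ h5
    rw [mul_assoc]
    refine mul_le_mul_of_nonneg_left ?_ (by positivity)
    have h8 : EE X k (fun m => if Squarefree m then 0 else 1) ≤ k ^ 2 * 2 * SX X ^ k / SX X ^ 2 := by
      rw [le_div_iff₀ hS2]
      linarith
    have h9 : (1 - (k : ℝ) ^ 2 * 2 / SX X ^ 2) * SX X ^ k = SX X ^ k - k ^ 2 * 2 * SX X ^ k / SX X ^ 2 := by
      field_simp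
    rw [h9]
    linarith
  · filter_upwards [hS.eventually_gt_atTop 0] with X hX
    have hSk : 0 < SX X ^ k := by positivity
    rw [div_le_iff₀ hSk]
    exact N2_up X k

theorem t_PWK : J_PWK := by
  intro hD
  refine ⟨fun k X t => ?_, fun k X n hn => ?_, fun k => ?_⟩
  · induction k with
    | zero => simp [dp, pk]
    | succ k ih =>
      rw [pow_succ' (dp X (pc X) t), ← ih, hD.1 X (X ^ k) (pc X) (pk X k) t ?_ ?_, pow_succ']
      · rfl
      · intro n hn
        unfold pc
        rw [if_neg fun h => absurd h.2 (not_le.2 hn)]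
      · intro n hn
        by_contra hne
        rw [pk_eq] at hne
        have h1 := ck_supp (fun h0 => hne (by rw [h0]; simp))
        exact absurd h1.2.1 (not_le.2 hn)
  · rw [pk_eq] at hn
    obtain ⟨i1, i2, i3, _⟩ := ck_supp (fun h0 => hn (by rw [h0]; simp))
    exact ⟨i1, i2, i3⟩
  · obtain ⟨h1, hS⟩ := SX_asymp
    have h2 := (N2_asymp k).mul (h1.pow k)
    rw [one_pow, mul_one] at h2
    refine h2.congr' ?_
    filter_upwards [hS.eventually_gt_atTop 0] with X hX
    rw [div_pow]
    field_simp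

end

end Pool.Agent.Q190.UM
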