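import Pool.Agent.Q148.UM.WINI
import Pool.Agent.Q97.UM.Stm18

set_option autoImplicit false

/-! Project UM11 (helper97), job WINW: isolated zeros in windows, relative to nonnegative signed combinations (adapted from Q148/UM/WINI.lean). -/

namespace Pool.Agent.Q190.UM

open Filter Topology MeasureTheory Complex
open scoped ComplexConjugate
open Pool.Agent.Q97.UM Pool.Agent.Q148.UM

lemma dp_cont (N : ℕ) (b : ℕ → ℂ) : Continuous (dp N b) := by
  unfold dp
  refine continuous_finsetSum _ fun n hn => ?_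
  refine continuous_const.mul ?_
  have hn0 : (n : ℂ) ≠ 0 := by
    have := (Finset.mem_Icc.1 hn).1
    exact_mod_cast (by omega : n ≠ 0)
  exact Continuous.const_cpow (by fun_prop) (Or.inl hn0)

lemma WT_cont {J : ℕ} (N : ℕ) (a : Fin J → ℝ) (b : Fin J → ℕ → ℂ) : Continuous (WT N a b) := by
  unfold WT
  exact continuous_finsetSum _ fun i _ => continuous_const.mul (((dp_cont N (b i)).norm).pow 2)

/-- integrals against `WT` are linear -/
lemma int_WT {J : ℕ} (N : ℕ) (a : Fin J → ℝ) (b : Fin J → ℕ → ℂ) {F : ℝ → ℝ} {x y : ℝ}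
    (hF : ∀ i, IntervalIntegrable (fun t => F t * ‖dp N (b i) t‖ ^ 2) volume x y) :
    ∫ t in x..y, F t * WT N a b t = ∑ i, a i * ∫ t in x..y, F t * ‖dp N (b i) t‖ ^ 2 := by
  have e : ∀ t, F t * WT N a b t = ∑ i, a i * (F t * ‖dp N (b i) t‖ ^ 2) := by
    intro t
    unfold WT
    rw [Finset.mul_sum]
    exact Finset.sum_congr rfl fun i _ => by ring
  simp_rw [e]
  rw [intervalIntegral.integral_finsetSum fun i _ => (hF i).const_mul (a i)]
  exact Finset.sum_congr rfl fun i _ => intervalIntegral.integral_const_mul _ _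

/-- two sided bounds are summed -/
lemma sum_two {J : ℕ} (N : ℕ) (a : Fin J → ℝ) (b : Fin J → ℕ → ℂ) {X : Fin J → ℝ} {m r T : ℝ}
    (h : ∀ i, |X i - m * (T * N2 N (b i))| ≤ r * (T * N2 N (b i))) :
    |(∑ i, a i * X i) - m * (T * MW N a b)| ≤ r * (T * VW N a b) := by
  unfold MW VW
  have e1 : (∑ i, a i * X i) - m * (T * ∑ i, a i * N2 N (b i)) = ∑ i, a i * (X i - m * (T * N2 N (b i))) := by
    rw [Finset.mul_sum, Finset.mul_sum, ← Finset.sum_sub_distrib]
    exact Finset.sum_congr rfl fun i _ => by ring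
  have e2 : r * (T * ∑ i, |a i| * N2 N (b i)) = ∑ i, |a i| * (r * (T * N2 N (b i))) := by
    rw [Finset.mul_sum, Finset.mul_sum]
    exact Finset.sum_congr rfl fun i _ => by ring
  rw [e1, e2]
  refine (Finset.abs_sum_le_sum_abs _ _).trans (Finset.sum_le_sum fun i _ => ?_)
  rw [abs_mul]
  exact mul_le_mul_of_nonneg_left (h i) (abs_nonneg _)

/-- upper bounds of nonnegative terms are summed -/
lemma sum_one {J : ℕ} (N : ℕ) (a : Fin J → ℝ) (b : Fin J → ℕ → ℂ) {X : Fin J → ℝ} {r T : ℝ}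
    (h0 : ∀ i, 0 ≤ X i) (h : ∀ i, X i ≤ r * (T * N2 N (b i))) :
    (∑ i, a i * X i) ≤ r * (T * VW N a b) := by
  unfold VW
  have e2 : r * (T * ∑ i, |a i| * N2 N (b i)) = ∑ i, |a i| * (r * (T * N2 N (b i))) := by
    rw [Finset.mul_sum, Finset.mul_sum]
    exact Finset.sum_congr rfl fun i _ => by ring
  rw [e2]
  refine Finset.sum_le_sum fun i _ => ?_
  exact (mul_le_mul_of_nonneg_right (le_abs_self (a i)) (h0 i)).trans (mul_le_mul_of_nonneg_left (h i) (abs_nonneg _))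

lemma VW_nonneg {J : ℕ} (N : ℕ) (a : Fin J → ℝ) (b : Fin J → ℕ → ℂ) : 0 ≤ VW N a b := by
  unfold VW
  exact Finset.sum_nonneg fun i _ => mul_nonneg (abs_nonneg _) (N2_nonneg N (b i))

lemma MW_le {J : ℕ} (N : ℕ) (a : Fin J → ℝ) (b : Fin J → ℕ → ℂ) : MW N a b ≤ VW N a b := by
  unfold MW VW
  exact Finset.sum_le_sum fun i _ => mul_le_mul_of_nonneg_right (le_abs_self _) (N2_nonneg N (b i))

theorem t_WINW : J_WINW := by
  intro hOM hQH hMV hPA hLI hDE hED hER hMT hTA hWN ε₀ hε₀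
  obtain ⟨e, he⟩ : ∃ e, e = min ε₀ 1 := ⟨_, rfl⟩
  have he0 : 0 < e := by rw [he]; positivity
  have he1 : e ≤ 1 := by rw [he]; exact min_le_right _ _
  have hee : e ≤ ε₀ := by rw [he]; exact min_le_left _ _
  obtain ⟨lam, g, R, hl0, hl1, hg, hR, hK, hcR⟩ := hMT (e / 16) (by positivity)
  obtain ⟨D, hD0, hD⟩ := hR.lip
  obtain ⟨C₁, hC₁, hPA⟩ := hPA R D lam hD hl0 hl1
  obtain ⟨ϑ, c₀, C', hϑ0, hϑ1, hc₀, hC', hTB⟩ := hTA
  obtain ⟨C₂, hC₂, hEDB⟩ := hED ϑ c₀ C' hϑ0 hϑ1 hc₀ hC' hTB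
  obtain ⟨c, hc⟩ : ∃ c, c = min (c₀ / 4) 1 := ⟨_, rfl⟩
  have hc0 : 0 < c := by rw [hc]; positivity
  have hEDB' : EDB (ϑ / 2) c C₂ := EDB_mono hC₂ (by rw [hc]; exact min_le_left _ _) hEDB
  obtain ⟨K₀, hER⟩ := hER (ϑ / 2) c C₂ (by positivity) (by linarith) hc0 (by rw [hc]; exact min_le_right _ _) hC₂ hEDB'
  obtain ⟨K, hKd⟩ : ∃ K, K = max K₀ 2 := ⟨_, rfl⟩
  have hK2 : 2 ≤ K := by rw [hKd]; exact le_max_right _ _
  have hKK : K₀ ≤ K := by rw [hKd]; exact le_max_left _ _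
  obtain ⟨η, hη⟩ : ∃ η, η = e / (64 * C₁) := ⟨_, rfl⟩
  have hη0 : 0 < η := by rw [hη]; positivity
  have hηC : C₁ * η ≤ e / 64 := by
    rw [hη]
    have : C₁ * (e / (64 * C₁)) = e / 64 := by field_simp
    rw [this]
  obtain ⟨δ, hδ⟩ : ∃ δ, δ = min (min (c / 100) (1 / 16)) (min (min (lam / 3) ((1 - lam) / 8)) (η ^ 2)) := ⟨_, rfl⟩
  have hδ0 : 0 < δ := by
    rw [hδ]
    have : 0 < 1 - lam := by linarith
    positivity
  have hδ1 : δ ≤ c / 100 := by rw [hδ]; exact (min_le_left _ _).trans (min_le_left _ _)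
  have hδ2 : δ ≤ 1 / 16 := by rw [hδ]; exact (min_le_left _ _).trans (min_le_right _ _)
  have hδ3 : δ ≤ lam / 3 := by
    rw [hδ]; exact (min_le_right _ _).trans ((min_le_left _ _).trans (min_le_left _ _))
  have hδ4 : δ ≤ (1 - lam) / 8 := by
    rw [hδ]; exact (min_le_right _ _).trans ((min_le_left _ _).trans (min_le_right _ _))
  have hδ5 : δ ≤ η ^ 2 := by rw [hδ]; exact (min_le_right _ _).trans (min_le_right _ _)
  obtain ⟨C₄, hC₄, hER⟩ := hER K hKK δ hδ0 hδ1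
  obtain ⟨Cw, hCw, hOM⟩ := hOM K δ hδ0 (by linarith)
  have hpi := Real.pi_pos
  obtain ⟨ηd, hηd⟩ : ∃ ηd, ηd = e / (64 * Cw ^ 2) := ⟨_, rfl⟩
  have hηd0 : 0 < ηd := by rw [hηd]; positivity
  have hηdC : ηd * Cw ^ 2 = e / 64 := by rw [hηd]; field_simp
  obtain ⟨d, hd0, hd8, hDE⟩ := hDE g R lam hg hR hK hl0 hl1.le ηd hηd0
  obtain ⟨H₁, hH₁, hWN⟩ := hWN (e / 32) (by positivity)
  -- the threshold for `h = H / π`
  obtain ⟨h₀, hh₀⟩ : ∃ h₀ : ℝ, h₀ = 32 / e * (4 * Cw ^ 2 + 10000 * Cw ^ 4 * C₄ + 8 * Cw ^ 4) + H₁ := ⟨_, rfl⟩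
  have hh00 : 0 ≤ h₀ := by rw [hh₀]; positivity
  have hh01 : H₁ ≤ h₀ := by
    rw [hh₀]
    have : 0 ≤ 32 / e * (4 * Cw ^ 2 + 10000 * Cw ^ 4 * C₄ + 8 * Cw ^ 4) := by positivity
    linarith
  refine ⟨1 + Real.pi * h₀ + 4 * Cw ^ 4, by nlinarith [pow_pos (by linarith : 0 < Cw) 4], fun H hH => ?_⟩
  have hCw4 : 0 < Cw ^ 4 := by positivity
  have hH1 : 1 ≤ H := by nlinarith [mul_nonneg hpi.le hh00]
  have hHH : H₁ ≤ H := by
    have := Real.pi_gt_three
    have h5 : h₀ ≤ Real.pi * h₀ := by nlinarith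
    linarith
  obtain ⟨θ₁, hθ₁0, hθ₁1, hWN⟩ := hWN H hHH
  obtain ⟨w, hw⟩ := hOM H hH1
  obtain ⟨-, -, -, -, hq0, hI2⟩ := hQH δ H Cw K w hδ0 (by linarith) hH1 hCw hK2 hw
  obtain ⟨h, hh⟩ : ∃ h, h = H / Real.pi := ⟨_, rfl⟩
  have hhH : H = h * Real.pi := by rw [hh]; field_simp
  have hhh : h₀ ≤ h := by
    rw [hh, le_div_iff₀ hpi]
    nlinarith
  have hh0 : 0 < h := by rw [hh]; positivity
  have hq0' : |qh w 0 - h| ≤ 4 * Cw ^ 2 / 3 := by
    have e1 : Real.pi * qh w 0 - H = Real.pi * (qh w 0 - h) := by rw [hhH]; ring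
    rw [e1, abs_mul, abs_of_pos hpi] at hq0
    have := Real.pi_gt_three
    have h2 := abs_nonneg (qh w 0 - h)
    nlinarith
  have hI2' : |I2 w - h| ≤ 4 * Cw ^ 4 / 3 := by
    have e1 : Real.pi * I2 w - H = Real.pi * (I2 w - h) := by rw [hhH]; ring
    rw [e1, abs_mul, abs_of_pos hpi] at hI2
    have := Real.pi_gt_three
    have h2 := abs_nonneg (I2 w - h)
    nlinarith
  -- consequences of `h₀ ≤ h`
  have f1 : 4 * Cw ^ 2 ≤ e / 32 * h := by
    have : 32 / e * (4 * Cw ^ 2) ≤ h := by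
      refine le_trans ?_ hhh
      rw [hh₀]
      have h1 : 0 ≤ 32 / e * (10000 * Cw ^ 4 * C₄ + 8 * Cw ^ 4) + H₁ := by positivity
      linarith
    have h2 := mul_le_mul_of_nonneg_left this (by positivity : 0 ≤ e / 32)
    have h3 : e / 32 * (32 / e * (4 * Cw ^ 2)) = 4 * Cw ^ 2 := by field_simp
    linarith
  have f2 : 10000 * Cw ^ 4 * C₄ ≤ e / 32 * h := by
    have : 32 / e * (10000 * Cw ^ 4 * C₄) ≤ h := by
      refine le_trans ?_ hhh
      rw [hh₀]
      have h1 : 0 ≤ 32 / e * (4 * Cw ^ 2 + 8 * Cw ^ 4) + H₁ := by positivity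
      linarith
    have h2 := mul_le_mul_of_nonneg_left this (by positivity : 0 ≤ e / 32)
    have h3 : e / 32 * (32 / e * (10000 * Cw ^ 4 * C₄)) = 10000 * Cw ^ 4 * C₄ := by field_simp
    linarith
  have f3 : 8 * Cw ^ 4 ≤ e / 32 * h := by
    have : 32 / e * (8 * Cw ^ 4) ≤ h := by
      refine le_trans ?_ hhh
      rw [hh₀]
      have h1 : 0 ≤ 32 / e * (4 * Cw ^ 2 + 10000 * Cw ^ 4 * C₄) + H₁ := by positivity
      linarith
    have h2 := mul_le_mul_of_nonneg_left this (by positivity : 0 ≤ e / 32)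
    have h3 : e / 32 * (32 / e * (8 * Cw ^ 4)) = 8 * Cw ^ 4 := by field_simp
    linarith
  have hI2up : I2 w ≤ 2 * h := by
    have := (abs_le.1 hI2').2
    nlinarith
  have hI20 : 0 ≤ I2 w := by
    have := (abs_le.1 hI2').1
    nlinarith
  obtain ⟨θ, hθ⟩ : ∃ θ, θ = min (min (ϑ / 2) θ₁) (min ((1 - lam) / 4) (η ^ 2)) := ⟨_, rfl⟩
  have hθ0 : 0 < θ := by
    rw [hθ]
    have : 0 < 1 - lam := by linarith
    positivity
  have hθ1 : θ ≤ ϑ / 2 := by rw [hθ]; exact (min_le_left _ _).trans (min_le_left _ _)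
  have hθ21 : θ ≤ θ₁ := by rw [hθ]; exact (min_le_left _ _).trans (min_le_right _ _)
  have hθ2 : θ ≤ 1 / 40 := hθ21.trans hθ₁1
  have hθ3 : θ ≤ (1 - lam) / 4 := by rw [hθ]; exact (min_le_right _ _).trans (min_le_left _ _)
  have hθ4 : θ ≤ η ^ 2 := by rw [hθ]; exact (min_le_right _ _).trans (min_le_right _ _)
  refine ⟨d, θ, hd0, by linarith, hθ0, hθ2, ?_⟩
  have hsδ : Real.sqrt δ ≤ η := by
    rw [Real.sqrt_le_left hη0.le]; exact hδ5
  have hsθ : Real.sqrt θ ≤ η := by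
    rw [Real.sqrt_le_left hη0.le]; exact hθ4
  have hη1 : η ≤ 1 / 64 := by
    rw [hη, div_le_div_iff₀ (by positivity) (by norm_num)]
    nlinarith
  have ePA := hPA δ H Cw K w θ (e / 32 * h) hδ0 hδ2 (by linarith) (by linarith) hH1 hCw hK2 hw hθ0 hθ2 (by positivity)
  have eDE := hDE δ H Cw K w hδ0 (by linarith) hH1 hCw hK2 hw
  have eER := hER H hH1
  filter_upwards [ePA, hWN, eDE, eER, eventually_ge_atTop (16 : ℝ)] with T ePA hWN eDE eER hT16 N hN J a b hWT
  have hT0 : 0 < T := by linarith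
  have hT1 : 1 ≤ T := by linarith
  have hNϑ : (N : ℝ) ≤ T ^ (ϑ / 2) := hN.trans (Real.rpow_le_rpow_of_exponent_le hT1 hθ1)
  have hN1 : (N : ℝ) ≤ T ^ θ₁ := hN.trans (Real.rpow_le_rpow_of_exponent_le hT1 hθ21)
  replace ePA := fun i => ePA N hN (b i)
  replace eER := fun i => eER N hNϑ (b i)
  have hAWi := fun i => (hWN N hN1 (b i)).2.2
  have hL0 : 0 ≤ Real.log T := Real.log_nonneg hT1
  have hL4 : 4 * Real.log T ≤ T := by
    have h5 := Real.log_le_sub_one_of_pos (show (0 : ℝ) < T / 16 by positivity)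
    rw [Real.log_div (by positivity) (by norm_num)] at h5
    have h6 : Real.log 16 ≤ 3 := by
      have : Real.log 16 = 4 * Real.log 2 := by
        rw [show (16 : ℝ) = 2 ^ 4 by norm_num, Real.log_pow]; norm_num
      rw [this]; have := Real.log_two_lt_d9; linarith
    linarith
  have hxy : T + 2 * Real.log T ≤ 2 * T - 2 * Real.log T := by linarith
  have hVi : ∀ i, Continuous (fun t : ℝ => ‖dp N (b i) t‖ ^ 2) := fun i => ((dp_cont N (b i)).norm).pow 2
  have hVc : Continuous (WT N a b) := WT_cont N a b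
  have hRc : Continuous R := by
    have h1 : LipschitzWith (Real.toNNReal D) R := by
      refine LipschitzWith.of_dist_le_mul fun x y => ?_
      rw [Real.dist_eq, Real.dist_eq]
      refine (hD x y).trans ?_
      exact mul_le_mul_of_nonneg_right (Real.le_coe_toNNReal D) (abs_nonneg _)
    exact h1.continuous
  have g1 := core_iso hw hδ0 hH1 hRc hVc hWT hxy eDE
  -- linearity
  have lA : ∫ t in (T + 2 * Real.log T)..(2 * T - 2 * Real.log T), Nw T (H / Real.log T) t * WT N a b t =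
      ∑ i, a i * ∫ t in (T + 2 * Real.log T)..(2 * T - 2 * Real.log T), Nw T (H / Real.log T) t * ‖dp N (b i) t‖ ^ 2 := by
    obtain ⟨mN, B1, bN⟩ := Nw_meas T (H / Real.log T)
    exact int_WT N a b fun i => ii_mul mN bN (hVi i) _ _
  obtain ⟨mE, ⟨B4, bE⟩, eE⟩ := ErrS_meas (δ := δ) hH1 K T
  have lE : ∫ t in (T + 2 * Real.log T)..(2 * T - 2 * Real.log T), ErrS δ H K T t * WT N a b t =
      ∑ i, a i * ∫ t in (T + 2 * Real.log T)..(2 * T - 2 * Real.log T), ErrS δ H K T t * ‖dp N (b i) t‖ ^ 2 :=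
    int_WT N a b fun i => ii_mul mE bE (hVi i) _ _
  have lP : 2 * (∫ α in (0 : ℝ)..1, R α * ∫ t in (T + 2 * Real.log T)..(2 * T - 2 * Real.log T),
        ‖Zt w T (lam * Real.log T * α) t‖ ^ 2 * WT N a b t) =
      ∑ i, a i * (2 * ∫ α in (0 : ℝ)..1, R α * ∫ t in (T + 2 * Real.log T)..(2 * T - 2 * Real.log T),
        ‖Zt w T (lam * Real.log T * α) t‖ ^ 2 * ‖dp N (b i) t‖ ^ 2) := by
    rw [← swap_pair hw hδ0 hRc hVc T (lam * Real.log T)]
    rw [int_WT N a b fun i => ?_]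
    · refine Finset.sum_congr rfl fun i _ => ?_
      rw [swap_pair hw hδ0 hRc (hVi i) T (lam * Real.log T)]
    · refine Continuous.intervalIntegrable ?_ _ _
      refine Continuous.mul (continuous_const.mul ?_) (hVi i)
      refine intervalIntegral.continuous_parametric_intervalIntegral_of_continuous' ?_ _ _
      have hc := Zt_cont hw hδ0 T (lam * Real.log T)
      exact (hRc.comp continuous_snd).mul (((hc.comp (continuous_snd.prodMk continuous_fst)).norm).pow 2)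
  have hA0 : 0 ≤ ∫ t in (T + 2 * Real.log T)..(2 * T - 2 * Real.log T), Nw T (H / Real.log T) t * WT N a b t :=
    intervalIntegral.integral_nonneg hxy fun t _ => mul_nonneg (by unfold Nw; positivity) (hWT t)
  have hAW := sum_two N a b (X := fun i => ∫ t in (T + 2 * Real.log T)..(2 * T - 2 * Real.log T),
    Nw T (H / Real.log T) t * ‖dp N (b i) t‖ ^ 2) (T := T) (m := h) (r := e / 32 * h) (fun i => by
      have := hAWi i
      rw [← hh] at this
      exact this)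
  rw [← lA] at hAW
  have hEW := sum_one N a b (X := fun i => ∫ t in (T + 2 * Real.log T)..(2 * T - 2 * Real.log T),
    ErrS δ H K T t * ‖dp N (b i) t‖ ^ 2) (T := T) (r := C₄)
    (fun i => intervalIntegral.integral_nonneg hxy fun t _ => mul_nonneg (eE t) (by positivity))
    (fun i => by
      have := eER i
      rw [mul_assoc] at this
      exact this)
  rw [← lE] at hEW
  have hPs := sum_two N a b (X := fun i => 2 * ∫ α in (0 : ℝ)..1, R α *
      ∫ t in (T + 2 * Real.log T)..(2 * T - 2 * Real.log T), ‖Zt w T (lam * Real.log T * α) t‖ ^ 2 * ‖dp N (b i) t‖ ^ 2)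
    (T := T) (m := H295SI.cR R lam * I2 w) (r := C₁ * (Real.sqrt δ + Real.sqrt θ) * I2 w + e / 32 * h) (fun i => by
      have h1 := ePA i
      have e1 : (R 0 / lam + 2 * lam * ∫ α in (0 : ℝ)..1, α * R α) * I2 w * T * N2 N (b i) =
          H295SI.cR R lam * I2 w * (T * N2 N (b i)) := by
        unfold H295SI.cR; ring
      have e2 : (C₁ * (Real.sqrt δ + Real.sqrt θ) * I2 w + e / 32 * h) * T * N2 N (b i) =
          (C₁ * (Real.sqrt δ + Real.sqrt θ) * I2 w + e / 32 * h) * (T * N2 N (b i)) := by ring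
      rw [e1, e2] at h1
      exact h1)
  rw [← lP] at hPs
  set A := ∫ t in (T + 2 * Real.log T)..(2 * T - 2 * Real.log T), Nw T (H / Real.log T) t * WT N a b t with hA
  set S := ∫ t in (T + 2 * Real.log T)..(2 * T - 2 * Real.log T), Niw d T (H / Real.log T) t * WT N a b t with hS
  set E := ∫ t in (T + 2 * Real.log T)..(2 * T - 2 * Real.log T), ErrS δ H K T t * WT N a b t with hE
  set P := 2 * ∫ α in (0 : ℝ)..1, R α * ∫ t in (T + 2 * Real.log T)..(2 * T - 2 * Real.log T),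
        ‖Zt w T (lam * Real.log T * α) t‖ ^ 2 * WT N a b t with hP
  obtain ⟨M, hM⟩ : ∃ M, M = T * MW N a b := ⟨_, rfl⟩
  obtain ⟨W, hW⟩ : ∃ W, W = T * VW N a b := ⟨_, rfl⟩
  have hW0 : 0 ≤ W := by rw [hW]; exact mul_nonneg hT0.le (VW_nonneg N a b)
  have hMW : M ≤ W := by rw [hM, hW]; exact mul_le_mul_of_nonneg_left (MW_le N a b) hT0.le
  rw [← hM, ← hW] at hAW hPs
  rw [← hW] at hEW
  have hAl := abs_le.1 hAW
  have hhW : 0 ≤ h * W := by positivity
  have hML : 0 ≤ M + e / 32 * W := by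
    have h1 : 0 ≤ h * (M + e / 32 * W) := by
      have : h * (M + e / 32 * W) = h * M + e / 32 * h * W := by ring
      rw [this]
      linarith [hAl.2]
    exact nonneg_of_mul_nonneg_right h1 hh0
  have eER' : 10000 * Cw ^ 4 * E ≤ e / 32 * h * W := by
    have h1 : 10000 * Cw ^ 4 * E ≤ 10000 * Cw ^ 4 * (C₄ * W) := mul_le_mul_of_nonneg_left hEW (by positivity)
    have h2 : 10000 * Cw ^ 4 * (C₄ * W) = 10000 * Cw ^ 4 * C₄ * W := by ring
    rw [h2] at h1
    exact h1.trans (mul_le_mul_of_nonneg_right f2 hW0)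
  have hA2 : ηd * Cw ^ 2 * A ≤ e / 32 * h * W := by
    rw [hηdC]
    have h1 := (abs_le.1 hAW).2
    have h2 : A ≤ 2 * (h * W) := by
      have h3 : e / 32 * h * W ≤ h * W := by
        have : e / 32 * h * W = e / 32 * (h * W) := by ring
        rw [this]
        nlinarith
      have h4 : h * M ≤ h * W := mul_le_mul_of_nonneg_left hMW hh0.le
      linarith
    calc e / 64 * A ≤ e / 64 * (2 * (h * W)) := by gcongr
      _ = e / 32 * h * W := by ring
  have hPW : P ≤ H370.cMTinv * (h * M) + 8 * (e / 32) * (h * W) := by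
    have h1 := (abs_le.1 hPs).2
    have h2 : C₁ * (Real.sqrt δ + Real.sqrt θ) * I2 w ≤ 2 * (e / 32) * h := by
      have h3 : C₁ * (Real.sqrt δ + Real.sqrt θ) ≤ e / 32 := by
        have : C₁ * (Real.sqrt δ + Real.sqrt θ) ≤ C₁ * (2 * η) :=
          mul_le_mul_of_nonneg_left (by linarith) (by linarith)
        linarith
      calc C₁ * (Real.sqrt δ + Real.sqrt θ) * I2 w ≤ e / 32 * (2 * h) :=
            mul_le_mul h3 hI2up hI20 (by positivity)
        _ = _ := by ring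
    have hcMT : H370.cMTinv < 3 / 2 := H370.cMTinv_lt
    have h80 : 0 ≤ H295SI.cR R lam := by
      unfold H295SI.cR
      have h9 : 0 ≤ ∫ α in (0 : ℝ)..1, α * R α :=
        intervalIntegral.integral_nonneg (by norm_num) fun α hα => mul_nonneg hα.1 (hR.nonneg α)
      have h10 := hR.nonneg 0
      positivity
    have h7 : 0 ≤ H370.cMTinv + e / 16 := h80.trans hcR
    have h4 : H295SI.cR R lam * I2 w ≤ (H370.cMTinv + e / 16) * h + e / 32 * h := by
      have h5 : H295SI.cR R lam * I2 w ≤ (H370.cMTinv + e / 16) * I2 w := mul_le_mul_of_nonneg_right hcR hI20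
      have h6 : I2 w ≤ h + 4 * Cw ^ 4 / 3 := by linarith [(abs_le.1 hI2').2]
      have h8 : (H370.cMTinv + e / 16) * I2 w ≤ (H370.cMTinv + e / 16) * (h + 4 * Cw ^ 4 / 3) :=
        mul_le_mul_of_nonneg_left h6 h7
      have h9 : (H370.cMTinv + e / 16) * (4 * Cw ^ 4 / 3) ≤ e / 32 * h := by
        have h10 : (H370.cMTinv + e / 16) * (4 * Cw ^ 4 / 3) ≤ 2 * (4 * Cw ^ 4 / 3) :=
          mul_le_mul_of_nonneg_right (by linarith) (by positivity)
        linarith
      linarith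
    have h4' : 0 ≤ H295SI.cR R lam * I2 w := mul_nonneg h80 hI20
    have h11 : H295SI.cR R lam * I2 w * M ≤ H370.cMTinv * (h * M) + 5 * (e / 32) * (h * W) := by
      have h12 : H295SI.cR R lam * I2 w * M ≤ H295SI.cR R lam * I2 w * (M + e / 32 * W) :=
        mul_le_mul_of_nonneg_left (by linarith [mul_nonneg (by positivity : 0 ≤ e / 32) hW0]) h4'
      have h13 : H295SI.cR R lam * I2 w * (M + e / 32 * W) ≤
          ((H370.cMTinv + e / 16) * h + e / 32 * h) * (M + e / 32 * W) := mul_le_mul_of_nonneg_right h4 hML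
      have h14 : ((H370.cMTinv + e / 16) * h + e / 32 * h) * (M + e / 32 * W) =
          H370.cMTinv * (h * M) + 3 * (e / 32) * (h * M) + (H370.cMTinv + 3 * (e / 32)) * (e / 32 * (h * W)) := by ring
      have h15 : 3 * (e / 32) * (h * M) ≤ 3 * (e / 32) * (h * W) :=
        mul_le_mul_of_nonneg_left (mul_le_mul_of_nonneg_left hMW hh0.le) (by positivity)
      have h16 : (H370.cMTinv + 3 * (e / 32)) * (e / 32 * (h * W)) ≤ 2 * (e / 32 * (h * W)) :=
        mul_le_mul_of_nonneg_right (by linarith) (by positivity)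
      linarith
    have h17 : C₁ * (Real.sqrt δ + Real.sqrt θ) * I2 w * W ≤ 2 * (e / 32) * h * W := mul_le_mul_of_nonneg_right h2 hW0
    have h18 : (C₁ * (Real.sqrt δ + Real.sqrt θ) * I2 w + e / 32 * h) * W =
        C₁ * (Real.sqrt δ + Real.sqrt θ) * I2 w * W + e / 32 * (h * W) := by ring
    rw [h18] at h1
    have h19 : 2 * (e / 32) * h * W = 2 * (e / 32) * (h * W) := by ring
    linarith
  have hkey : 0 ≤ e * (h * W) := by positivity
  have hkey2 : e * (h * W) ≤ ε₀ * (h * W) := by gcongr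
  have e0 : h * (T * ((2 - H370.cMTinv) * MW N a b - ε₀ * VW N a b)) =
      (2 - H370.cMTinv) * (h * M) - ε₀ * (h * W) := by rw [hM, hW]; ring
  rw [← hh, e0]
  have e1 : e / 32 * h * W = e / 32 * (h * W) := by ring
  rw [e1] at eER' hA2 hAl
  linarith [hAl.1, hAl.2]

end Pool.Agent.Q190.UM
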