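import Pool.Agent.Q148.UM.SAMPI
import Pool.Agent.Q190.UM.WINW

set_option autoImplicit false

/-! Project UM11 (helper97), job SAMW: from windows to the isolated zeros, nonnegative signed combinations (adapted from Q148/UM/SAMPI.lean). -/

namespace Pool.Agent.Q190.UM

open Filter Topology MeasureTheory Complex
open Pool.Agent.Q97.UM Pool.Agent.Q148.UM
open Pool.Agent.Q61.UM (samp_cmp)

noncomputable section

/-- the final arithmetic -/
theorem fin_ar2 {cM ε H L M S X Y J B1 B2 C₂ : ℝ} (hε : 0 < ε) (hH : 0 < H) (hL0 : 0 < L) (hS0 : 0 ≤ S) (hC₂ : 0 ≤ C₂)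
    (hHc : 32 * C₂ / ε ≤ H) (h1 : X - 2 * (H / L) * Y ≤ 2 * (H / L) * (ε / 16 * L * S))
    (w1 : (H / Real.pi) * ((2 - cM) * M - ε / 4 * S) ≤ J) (hJ : J ≤ X + (B1 + B2)) (hb1 : B1 ≤ C₂ * S) (hb2 : B2 ≤ C₂ * S) :
    L / (2 * Real.pi) * ((2 - cM) * M - ε * S) ≤ Y := by
  have hπ : 3 < Real.pi := Real.pi_gt_three
  have hπ4 : Real.pi < 4 := Real.pi_lt_four
  have h2 : (H / Real.pi) * ((2 - cM) * M - ε / 4 * S) ≤ X + 2 * (C₂ * S) := by linarith
  have h3 : 2 * (C₂ * S) ≤ ε / 4 * (H / Real.pi) * S := by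
    have h4 : 2 * C₂ ≤ ε / 4 * (H / Real.pi) := by
      rw [← mul_div_assoc, le_div_iff₀ (by positivity)]
      rw [div_le_iff₀ hε] at hHc
      have h11 : 2 * C₂ * Real.pi ≤ 2 * C₂ * 4 := mul_le_mul_of_nonneg_left hπ4.le (by positivity)
      linarith
    calc 2 * (C₂ * S) = 2 * C₂ * S := by ring
      _ ≤ ε / 4 * (H / Real.pi) * S := mul_le_mul_of_nonneg_right h4 hS0
  have h5 : (H / Real.pi) * ((2 - cM) * M - ε / 2 * S) ≤ 2 * (H / L) * (Y + ε / 16 * L * S) := by
    have : (H / Real.pi) * ((2 - cM) * M - ε / 2 * S) =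
      (H / Real.pi) * ((2 - cM) * M - ε / 4 * S) - ε / 4 * (H / Real.pi) * S := by ring
    rw [this]
    linarith
  have h6 : (L / (2 * Real.pi)) * ((2 - cM) * M - ε / 2 * S) ≤ Y + ε / 16 * L * S := by
    have h7 := mul_le_mul_of_nonneg_left h5 (by positivity : 0 ≤ L / (2 * H))
    have e1 : L / (2 * H) * ((H / Real.pi) * ((2 - cM) * M - ε / 2 * S)) =
        (L / (2 * Real.pi)) * ((2 - cM) * M - ε / 2 * S) := by field_simp
    have e2 : L / (2 * H) * (2 * (H / L) * (Y + ε / 16 * L * S)) = Y + ε / 16 * L * S := by field_simp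
    rw [e1, e2] at h7
    exact h7
  have h8 : ε / 16 * L * S ≤ ε / 2 * (L / (2 * Real.pi)) * S := by
    have h9 : ε / 16 ≤ ε / 2 / (2 * Real.pi) := by
      rw [le_div_iff₀ (by positivity)]
      have h11 : ε * Real.pi ≤ ε * 4 := mul_le_mul_of_nonneg_left hπ4.le hε.le
      linarith
    calc ε / 16 * L * S = ε / 16 * (L * S) := by ring
      _ ≤ ε / 2 / (2 * Real.pi) * (L * S) := mul_le_mul_of_nonneg_right h9 (by positivity)
      _ = ε / 2 * (L / (2 * Real.pi)) * S := by ring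
  have h10 : L / (2 * Real.pi) * ((2 - cM) * M - ε * S) = (L / (2 * Real.pi)) * ((2 - cM) * M - ε / 2 * S) -
      ε / 2 * (L / (2 * Real.pi)) * S := by ring
  rw [h10]
  linarith

open Classical in
theorem t_SAMW : J_SAMW := by
  intro hD _ _ hEDB hWIN hWINI ε hε
  have hF := H370.good_zeta
  have hZ := Pool.Agent.Q178.UM.ZF2.t_ZF2
  obtain ⟨C, hC, hcnt⟩ := H370.zcount hF
  obtain ⟨θE, c, C₂, hθE0, hθE1, hc, hC₂, hE⟩ := hEDB
  obtain ⟨H₁, hH1, hWIN⟩ := hWIN 1 one_pos
  obtain ⟨H₂, hH2, hWI⟩ := hWINI (ε / 4) (by positivity)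
  have hπ : 3 < Real.pi := Real.pi_gt_three
  have hπ4 : Real.pi < 4 := Real.pi_lt_four
  obtain ⟨H, hHdef⟩ : ∃ H : ℝ, H = max (max H₁ H₂) (32 * C₂ / ε) := ⟨_, rfl⟩
  have hHa : H₁ ≤ H := by rw [hHdef]; exact (le_max_left _ _).trans (le_max_left _ _)
  have hHb : H₂ ≤ H := by rw [hHdef]; exact (le_max_right _ _).trans (le_max_left _ _)
  have hHc : 32 * C₂ / ε ≤ H := by rw [hHdef]; exact le_max_right _ _
  have hH : 0 < H := by linarith
  obtain ⟨θ₁, hθ₁0, hθ₁1, hev1⟩ := hWIN H hHa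
  obtain ⟨d, θ₂, hd0, hd1, hθ₂0, hθ₂1, hev2⟩ := hWI H hHb
  obtain ⟨θ, hθ⟩ : ∃ θ : ℝ, θ = min (min θ₁ θ₂) (min θE (ε / (128 * H))) := ⟨_, rfl⟩
  have hθ0 : 0 < θ := by rw [hθ]; positivity
  have hθa : θ ≤ θ₁ := by rw [hθ]; exact (min_le_left _ _).trans (min_le_left _ _)
  have hθb : θ ≤ θ₂ := by rw [hθ]; exact (min_le_left _ _).trans (min_le_right _ _)
  have hθc : θ ≤ θE := by rw [hθ]; exact (min_le_right _ _).trans (min_le_left _ _)
  have hθ40 : θ ≤ 1 / 40 := hθa.trans hθ₁1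
  have hθH : θ * (128 * H) ≤ ε := by
    have : θ ≤ ε / (128 * H) := by rw [hθ]; exact (min_le_right _ _).trans (min_le_right _ _)
    rw [le_div_iff₀ (by positivity)] at this
    exact this
  refine ⟨d, θ, hd0, hd1, hθ0, hθ40, ?_⟩
  have hlog : ∀ᶠ T : ℝ in atTop, 12 * C * Real.log T ≤ ε / 32 * T ^ (39 / 40 : ℝ) := by
    have h1 := isLittleO_log_rpow_atTop (show (0 : ℝ) < 39 / 40 by norm_num)
    have h2 := h1.bound (show 0 < ε / 32 / (12 * C) by positivity)
    filter_upwards [h2, eventually_ge_atTop (1 : ℝ)] with T h hT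
    rw [Real.norm_eq_abs, Real.norm_eq_abs, abs_of_nonneg (Real.log_nonneg hT), abs_of_nonneg (by positivity)] at h
    have h3 : 12 * C * Real.log T ≤ 12 * C * (ε / 32 / (12 * C) * T ^ (39 / 40 : ℝ)) := by gcongr
    refine h3.trans (le_of_eq ?_)
    field_simp
  have hlog2 : ∀ᶠ T : ℝ in atTop, 8 * Real.log T ≤ T := by
    have h2 := (Real.isLittleO_log_id_atTop).bound (show (0 : ℝ) < 1 / 8 by norm_num)
    filter_upwards [h2, eventually_ge_atTop (1 : ℝ)] with T h hT
    simp only [id] at h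
    rw [Real.norm_eq_abs, Real.norm_eq_abs, abs_of_nonneg (Real.log_nonneg hT), abs_of_nonneg (by positivity)] at h
    linarith
  filter_upwards [hev1, hev2, hE, hlog, hlog2, eventually_ge_atTop (16 : ℝ), Real.tendsto_log_atTop.eventually_ge_atTop 2,
    Real.tendsto_log_atTop.eventually_ge_atTop H] with T hev1 hev2 hE hlog hLT hT hL2 hLH
  intro N hN J a b hWT
  have hT0 : 0 < T := by linarith
  have hT1 : 1 ≤ T := by linarith
  have hN1 : (N : ℝ) ≤ T ^ θ₁ := hN.trans (Real.rpow_le_rpow_of_exponent_le hT1 hθa)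
  have hN2 : (N : ℝ) ≤ T ^ θ₂ := hN.trans (Real.rpow_le_rpow_of_exponent_le hT1 hθb)
  have hN3 : (N : ℝ) ≤ T ^ θE := hN.trans (Real.rpow_le_rpow_of_exponent_le hT1 hθc)
  have hout : 12 * C * Real.log T * T ^ (1 / 40 : ℝ) ≤ ε / 32 * T := by
    calc 12 * C * Real.log T * T ^ (1 / 40 : ℝ) ≤ ε / 32 * T ^ (39 / 40 : ℝ) * T ^ (1 / 40 : ℝ) := by gcongr
      _ = ε / 32 * (T ^ (39 / 40 : ℝ) * T ^ (1 / 40 : ℝ)) := by ring
      _ = ε / 32 * T := by
          rw [← Real.rpow_add hT0]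
          norm_num
  have hW : ∀ b : ℕ → ℂ, |(∫ t in (T + 2 * Real.log T)..(2 * T - 2 * Real.log T), Nw T (H / Real.log T) t * ‖dp N b t‖ ^ 2) -
      (H / Real.pi) * (T * N2 N b)| ≤ 1 * (H / Real.pi) * (T * N2 N b) := fun b => (hev1 N hN1 b).2.2
  have w1 := hev2 N hN2 J a b hWT
  have hmz : ∀ s ∈ H370.Zf riemannZeta T (2 * T), (1 : ℝ) ≤ mz s := by
    intro s hs
    rw [H370.mem_Zf hF (by linarith)] at hs
    have := H370.Loc.mult_pos' hF (show 0 < s.im by linarith [hs.2.2.1]) hs.2.2.2.2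
    exact_mod_cast this
  have h0 := fun i => samp_cmp hD hε hC hcnt hθ0 hθ40 hH hθH (by linarith) (by linarith) hLH (by linarith) hout hN (b i) hW (ω := wi d T)
      (fun s _ => by unfold wi; split_ifs <;> norm_num)
      (fun s hs => by
        have := hmz s hs
        unfold wi
        split_ifs
        · exact this
        · linarith)
  -- the boundary terms
  have hrT : H / Real.log T ≤ 1 := by rw [div_le_one (by linarith)]; exact hLH
  have hr0 : 0 < H / Real.log T := by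
    have : 0 < Real.log T := by linarith
    positivity
  have hVi : ∀ i, Continuous (fun t : ℝ => ‖dp N (b i) t‖ ^ 2) := fun i => ((dp_cont N (b i)).norm).pow 2
  have hVc : Continuous (WT N a b) := WT_cont N a b
  have hxy : T + 2 * Real.log T ≤ 2 * T - 2 * Real.log T := by linarith
  have bdry : ∀ X : ℝ, |X| ≤ 1 →
      ∫ t in (T + 2 * Real.log T)..(2 * T - 2 * Real.log T), cz (t + X) (1 / Real.log T) (0 / Real.log T) * WT N a b t ≤
        C₂ * (T * VW N a b) := by
    intro X hX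
    have hI : ∀ i, IntervalIntegrable (fun t => cz (t + X) (1 / Real.log T) (0 / Real.log T) * ‖dp N (b i) t‖ ^ 2) volume
        (T + 2 * Real.log T) (2 * T - 2 * Real.log T) := fun i =>
      Pool.Agent.Q222.UM.cz_int hZ X _ _ hxy (hVi i) (fun s => by positivity)
    rw [int_WT N a b hI]
    refine sum_one N a b (fun i => intervalIntegral.integral_nonneg hxy fun t _ =>
      mul_nonneg (Pool.Agent.Q222.UM.cz_nonneg hZ _ _ _) (by positivity)) fun i => ?_
    have h1 := hE N hN3 (b i) X 0 (by linarith) le_rfl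
    rw [mul_zero, neg_zero, Real.exp_zero, mul_one] at h1
    have h2 : ∫ t in (T + 2 * Real.log T)..(2 * T - 2 * Real.log T), cz (t + X) (1 / Real.log T) (0 / Real.log T) * ‖dp N (b i) t‖ ^ 2 ≤
        ∫ t in T..(2 * T), cz (t + X) (1 / Real.log T) (0 / Real.log T) * ‖dp N (b i) t‖ ^ 2 := by
      refine intervalIntegral.integral_mono_interval (by linarith) (by linarith) (by linarith)
        (Eventually.of_forall fun t => ?_) ?_
      · exact mul_nonneg (Pool.Agent.Q222.UM.cz_nonneg hZ _ _ _) (by positivity)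
      · exact Pool.Agent.Q222.UM.cz_int hZ X _ _ (by linarith) (hVi i) (fun s => by positivity)
    linarith
  have hb1 := bdry (H / Real.log T) (by rw [abs_of_pos hr0]; exact hrT)
  have hb2 := bdry (-(H / Real.log T)) (by rw [abs_neg, abs_of_pos hr0]; exact hrT)
  -- the integrated pointwise inequality
  have iSi : ∀ i, IntervalIntegrable (fun t => (∑ s ∈ (ZT T).filter (fun s => |s.im - t| ≤ H / Real.log T), wi d T s) *
      ‖dp N (b i) t‖ ^ 2) volume (T + 2 * Real.log T) (2 * T - 2 * Real.log T) := fun i => ii_ws T _ (wi d T) (hVi i) _ _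
  have iS : IntervalIntegrable (fun t => (∑ s ∈ (ZT T).filter (fun s => |s.im - t| ≤ H / Real.log T), wi d T s) * WT N a b t)
      volume (T + 2 * Real.log T) (2 * T - 2 * Real.log T) := ii_ws T _ (wi d T) hVc _ _
  have iN : IntervalIntegrable (fun t => Niw d T (H / Real.log T) t * WT N a b t)
      volume (T + 2 * Real.log T) (2 * T - 2 * Real.log T) := by
    obtain ⟨mS, B2, bS⟩ := Niw_meas d T (H / Real.log T)
    exact ii_mul mS bS hVc _ _
  have ic1 := Pool.Agent.Q222.UM.cz_int hZ (H / Real.log T) (1 / Real.log T) (0 / Real.log T) hxy hVc hWT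
  have ic2 := Pool.Agent.Q222.UM.cz_int hZ (-(H / Real.log T)) (1 / Real.log T) (0 / Real.log T) hxy hVc hWT
  have hint : ∫ t in (T + 2 * Real.log T)..(2 * T - 2 * Real.log T), Niw d T (H / Real.log T) t * WT N a b t ≤
      (∫ t in (T + 2 * Real.log T)..(2 * T - 2 * Real.log T),
        (∑ s ∈ (ZT T).filter (fun s => |s.im - t| ≤ H / Real.log T), wi d T s) * WT N a b t) +
      ((∫ t in (T + 2 * Real.log T)..(2 * T - 2 * Real.log T),
          cz (t + H / Real.log T) (1 / Real.log T) (0 / Real.log T) * WT N a b t) +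
        ∫ t in (T + 2 * Real.log T)..(2 * T - 2 * Real.log T),
          cz (t + -(H / Real.log T)) (1 / Real.log T) (0 / Real.log T) * WT N a b t) := by
    rw [← intervalIntegral.integral_add ic1 ic2, ← intervalIntegral.integral_add iS (ic1.add ic2)]
    refine intervalIntegral.integral_mono_on hxy iN (iS.add (ic1.add ic2)) fun t ht => ?_
    have h1 := Niw_le (d := d) (T := T) (H := H) (t := t) (by linarith) hL2 hH hLH hd1 ht.1 ht.2
    have h2 := mul_le_mul_of_nonneg_right h1 (hWT t)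
    refine h2.trans (le_of_eq ?_)
    ring
  rw [int_WT N a b iSi] at hint
  -- summation of the comparison
  have hY : ∑ i, a i * ∑ s ∈ ZI d T, ‖dp N (b i) s.im‖ ^ 2 = ∑ s ∈ ZI d T, WT N a b s.im := by
    unfold WT
    rw [Finset.sum_comm]
    exact Finset.sum_congr rfl fun i _ => Finset.mul_sum _ _ _
  have h1 : (∑ i, a i * ∫ t in (T + 2 * Real.log T)..(2 * T - 2 * Real.log T),
        (∑ s ∈ (ZT T).filter (fun s => |s.im - t| ≤ H / Real.log T), wi d T s) * ‖dp N (b i) t‖ ^ 2) -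
      2 * (H / Real.log T) * ∑ s ∈ ZI d T, WT N a b s.im ≤
      2 * (H / Real.log T) * (ε / 16 * Real.log T * (T * VW N a b)) := by
    rw [← hY]
    have e1 : (∑ i, a i * ∫ t in (T + 2 * Real.log T)..(2 * T - 2 * Real.log T),
        (∑ s ∈ (ZT T).filter (fun s => |s.im - t| ≤ H / Real.log T), wi d T s) * ‖dp N (b i) t‖ ^ 2) -
      2 * (H / Real.log T) * ∑ i, a i * ∑ s ∈ ZI d T, ‖dp N (b i) s.im‖ ^ 2 =
      ∑ i, a i * ((∫ t in (T + 2 * Real.log T)..(2 * T - 2 * Real.log T),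
        (∑ s ∈ (ZT T).filter (fun s => |s.im - t| ≤ H / Real.log T), wi d T s) * ‖dp N (b i) t‖ ^ 2) -
        2 * (H / Real.log T) * ∑ s ∈ ZI d T, ‖dp N (b i) s.im‖ ^ 2) := by
      rw [Finset.mul_sum, ← Finset.sum_sub_distrib]
      exact Finset.sum_congr rfl fun i _ => by ring
    have e2 : 2 * (H / Real.log T) * (ε / 16 * Real.log T * (T * VW N a b)) =
        ∑ i, |a i| * (2 * (H / Real.log T) * (ε / 16 * Real.log T * (T * N2 N (b i)))) := by
      unfold VW
      rw [Finset.mul_sum, Finset.mul_sum, Finset.mul_sum]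
      exact Finset.sum_congr rfl fun i _ => by ring
    rw [e1, e2]
    refine (le_abs_self _).trans ((Finset.abs_sum_le_sum_abs _ _).trans (Finset.sum_le_sum fun i _ => ?_))
    rw [abs_mul]
    refine mul_le_mul_of_nonneg_left ?_ (abs_nonneg _)
    have h2 := h0 i
    rw [sum_ZI d T (fun x => ‖dp N (b i) x‖ ^ 2)] at h2
    exact h2
  have hfin := fin_ar2 (cM := H370.cMTinv) (M := T * MW N a b) (S := T * VW N a b) hε hH (by linarith)
    (mul_nonneg hT0.le (VW_nonneg N a b)) hC₂ hHc h1 (by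
      refine le_trans (le_of_eq ?_) w1
      ring) hint hb1 hb2
  refine le_trans (le_of_eq ?_) hfin
  ring

end

end Pool.Agent.Q190.UM
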